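import Pool.Agent.H54.CX.PC

/-!
# Abstract buildings of type `Ã₂` from a semilattice

The semilattice of the lattices in a three-dimensional vector space over a field with a discrete valuation, with the
multiplication by a uniformiser, gives a two-dimensional complex: vertices are the lattices up to multiplication.
-/

set_option autoImplicit false

namespace Pool.Agent.H34.BD

open Pool.Agent.H54.CX

/-- A semilattice with an automorphism `s` (multiplication by the uniformiser) such that `s a < a`, powers of `s`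
make everything small, and there is no chain `s a < b < c < d < a`. -/
structure Bs (L : Type) [SemilatticeSup L] where
  /-- multiplication by the uniformiser -/
  s : L ≃o L
  lt : ∀ a, s a < a
  arch : ∀ a b, ∃ n : ℕ, (s ^ n) a ≤ b
  chain : ∀ a b c d, s a < b → b < c → c < d → d < a → False

variable {L : Type} [SemilatticeSup L] (B : Bs L)

namespace Bs

/-- the multiplication by the `n`-th power of the uniformiser -/
def z (n : ℤ) (a : L) : L := (B.s ^ n) a

theorem z_zero (a : L) : B.z 0 a = a := by simp [z]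

theorem z_one (a : L) : B.z 1 a = B.s a := by simp [z]

theorem z_add (m n : ℤ) (a : L) : B.z (m + n) a = B.z m (B.z n a) := by
  simp only [z, zpow_add]; rfl

theorem z_neg_cancel (n : ℤ) (a : L) : B.z (-n) (B.z n a) = a := by
  rw [← z_add, neg_add_cancel, z_zero]

theorem z_cancel_neg (n : ℤ) (a : L) : B.z n (B.z (-n) a) = a := by
  rw [← z_add, add_neg_cancel, z_zero]

theorem z_le {n : ℤ} {a b : L} : B.z n a ≤ B.z n b ↔ a ≤ b := (B.s ^ n).le_iff_le

theorem z_lt {n : ℤ} {a b : L} : B.z n a < B.z n b ↔ a < b := (B.s ^ n).lt_iff_lt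

theorem z_inj {n : ℤ} {a b : L} (h : B.z n a = B.z n b) : a = b := (B.s ^ n).injective h

theorem z_sup (n : ℤ) (a b : L) : B.z n (a ⊔ b) = B.z n a ⊔ B.z n b := (B.s ^ n).map_sup a b

theorem s_z (n : ℤ) (a : L) : B.s (B.z n a) = B.z n (B.s a) := by
  rw [← z_one, ← z_one, ← z_add, ← z_add, add_comm]

theorem z_succ (n : ℤ) (a : L) : B.z (n + 1) a = B.s (B.z n a) := by
  rw [add_comm, z_add, z_one]

theorem z_nat_le (k : ℕ) (a : L) : B.z (k : ℤ) a ≤ a := by
  induction k with
  | zero => simp [z_zero]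
  | succ k ih =>
    push_cast
    rw [z_succ]
    exact (B.lt _).le.trans ih

theorem z_anti {m n : ℤ} (h : m ≤ n) (a : L) : B.z n a ≤ B.z m a := by
  obtain ⟨k, rfl⟩ := Int.le.dest h
  rw [z_add, B.z_le]
  exact B.z_nat_le k a

theorem z_strict {m n : ℤ} (h : m < n) (a : L) : B.z n a < B.z m a := by
  refine (B.z_anti (Int.add_one_le_of_lt h) a).trans_lt ?_
  rw [z_succ]
  exact B.lt _

theorem z_le_iff {m n : ℤ} {a : L} : B.z n a ≤ B.z m a ↔ m ≤ n := by
  constructor
  · intro h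
    by_contra h'
    exact absurd h (B.z_strict (not_le.1 h') a).not_ge
  · intro h
    exact B.z_anti h a

theorem z_lt_iff {m n : ℤ} {a : L} : B.z n a < B.z m a ↔ m < n := by
  constructor
  · intro h
    by_contra h'
    exact absurd h (B.z_anti (not_lt.1 h') a).not_gt
  · intro h
    exact B.z_strict h a

/-- there is a bound for the position of `a` with respect to `b` -/
theorem exists_bound (a b : L) : ∃ k : ℕ, B.z k b ≤ a ∧ a ≤ B.z (-k) b := by
  obtain ⟨m, hm⟩ := B.arch b a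
  obtain ⟨n, hn⟩ := B.arch a b
  refine ⟨max m n, ?_, ?_⟩
  · refine (B.z_anti (m := (m : ℤ)) (by exact_mod_cast le_max_left m n) b).trans ?_
    simpa [z] using hm
  · rw [← B.z_le (n := ((max m n : ℕ) : ℤ)), z_cancel_neg]
    refine (B.z_anti (m := (n : ℤ)) (by exact_mod_cast le_max_right m n) a).trans ?_
    simpa [z] using hn

/-- equal up to a power of the uniformiser -/
def setoid : Setoid L where
  r a b := ∃ n : ℤ, B.z n a = b
  iseqv :=
    { refl := fun a => ⟨0, B.z_zero a⟩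
      symm := by
        rintro a b ⟨n, rfl⟩
        exact ⟨-n, B.z_neg_cancel n a⟩
      trans := by
        rintro a b c ⟨n, rfl⟩ ⟨m, rfl⟩
        exact ⟨m + n, B.z_add m n a⟩ }

/-- the vertices -/
def Vx : Type := Quotient B.setoid

/-- the vertex of an element of `L` -/
def cls (a : L) : B.Vx := Quotient.mk B.setoid a

theorem cls_eq {a b : L} : B.cls a = B.cls b ↔ ∃ n : ℤ, B.z n a = b := Quotient.eq (r := B.setoid)

theorem cls_z (n : ℤ) (a : L) : B.cls (B.z n a) = B.cls a := (B.cls_eq.2 ⟨n, rfl⟩).symm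

theorem cls_s (a : L) : B.cls (B.s a) = B.cls a := by rw [← z_one, cls_z]

theorem exists_rep (u : B.Vx) : ∃ a, B.cls a = u := Quotient.exists_rep u

/-- `u` and `v` are joined by an edge -/
def Ed (u v : B.Vx) : Prop := ∃ a b, B.cls a = u ∧ B.cls b = v ∧ B.s a < b ∧ b < a

/-- oriented triangles -/
def Tp (u v w : B.Vx) : Prop :=
  ∃ a b c, B.cls a = u ∧ B.cls b = v ∧ B.cls c = w ∧ B.s a < c ∧ c < b ∧ b < a

theorem s_lt {a b : L} : B.s a < B.s b ↔ a < b := B.s.lt_iff_lt

theorem s_le {a b : L} : B.s a ≤ B.s b ↔ a ≤ b := B.s.le_iff_le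

theorem Ed.symm {u v : B.Vx} (h : B.Ed u v) : B.Ed v u := by
  obtain ⟨a, b, rfl, rfl, h1, h2⟩ := h
  exact ⟨b, B.s a, rfl, B.cls_s a, B.s_lt.2 h2, h1⟩

theorem Tp.rot {u v w : B.Vx} (h : B.Tp u v w) : B.Tp v w u := by
  obtain ⟨a, b, c, rfl, rfl, rfl, h1, h2, h3⟩ := h
  exact ⟨b, c, B.s a, rfl, rfl, B.cls_s a, B.s_lt.2 h3, h1, h2⟩

theorem Tp.edge {u v w : B.Vx} (h : B.Tp u v w) : B.Ed u v := by
  obtain ⟨a, b, c, rfl, rfl, rfl, h1, h2, h3⟩ := h
  exact ⟨a, b, rfl, rfl, h1.trans h2, h3⟩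

theorem Ed.ne {u v : B.Vx} (h : B.Ed u v) : u ≠ v := by
  obtain ⟨a, b, rfl, rfl, h1, h2⟩ := h
  intro h
  obtain ⟨n, rfl⟩ := B.cls_eq.1 h
  rw [← z_one, z_lt_iff] at h1
  have h3 : B.z n a < B.z 0 a := by rwa [z_zero]
  rw [z_lt_iff] at h3
  omega

/-- the complex -/
def cpx : Cpx B.Vx where
  Edge := B.Ed
  Tri u v w := B.Tp u v w ∨ B.Tp v u w
  len _ _ := 1
  ne _ _ h := h.ne
  symm _ _ h := h.symm
  edge u v w h := h.elim (fun h => h.edge) (fun h => h.edge.symm)
  rot u v w h := h.elim (fun h => Or.inl h.rot) (fun h => Or.inr h.rot.rot)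
  swap u v w h := h.symm
  len_symm _ _ _ := rfl
  pos _ _ _ := one_pos
  lt _ _ _ _ := by norm_num

/-- the second vertex of an edge has a representative between the given representative of the first vertex and its
multiple -/
theorem exists_edge {a : L} {v : B.Vx} (h : B.Ed (B.cls a) v) :
    ∃ b, B.cls b = v ∧ B.s a < b ∧ b < a := by
  obtain ⟨a', b, h1, rfl, h2, h3⟩ := h
  obtain ⟨n, rfl⟩ := B.cls_eq.1 h1
  refine ⟨B.z n b, B.cls_z n b, ?_, ?_⟩
  · rw [s_z, z_lt]; exact h2
  · rw [z_lt]; exact h3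

theorem exists_tp {a : L} {v w : B.Vx} (h : B.Tp (B.cls a) v w) :
    ∃ b c, B.cls b = v ∧ B.cls c = w ∧ B.s a < c ∧ c < b ∧ b < a := by
  obtain ⟨a', b, c, h1, rfl, rfl, h2, h3, h4⟩ := h
  obtain ⟨n, rfl⟩ := B.cls_eq.1 h1
  refine ⟨B.z n b, B.z n c, B.cls_z n b, B.cls_z n c, ?_, ?_, ?_⟩
  · rw [s_z, z_lt]; exact h2
  · rw [z_lt]; exact h3
  · rw [z_lt]; exact h4

/-- the representative is unique -/
theorem rep_unique {a b b' : L} (h1 : B.s a < b) (h2 : b < a) (h1' : B.s a < b') (h2' : b' < a)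
    (h : B.cls b = B.cls b') : b = b' := by
  obtain ⟨n, rfl⟩ := B.cls_eq.1 h
  rcases lt_trichotomy n 0 with hn | hn | hn
  · exfalso
    have h3 : B.z (-1) b ≤ B.z n b := B.z_anti (by omega) b
    have h4 := h3.trans_lt h2'
    rw [← B.z_lt (n := 1), z_cancel_neg, z_one] at h4
    exact absurd h1 h4.not_gt
  · subst hn; rw [z_zero]
  · exfalso
    have h3 : B.z n b ≤ B.z 1 b := B.z_anti (by omega) b
    have h4 := h1'.trans_le h3
    rw [z_one, s_lt] at h4
    exact absurd h2 h4.not_gt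

end Bs

end Pool.Agent.H34.BD
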