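import Pool.Agent.H34.BD.Abs

/-!
# Actions on the abstract building
-/

set_option autoImplicit false

namespace Pool.Agent.H34.BD

open Pool.Agent.H54.CX

namespace Bs

variable {L : Type} [SemilatticeSup L] (B : Bs L) {G : Type} [Group G]

/-- a group acting on the semilattice by automorphisms commuting with the multiplication by the uniformiser -/
structure Ac (B : Bs L) (G : Type) [Group G] [MulAction G L] : Prop where
  le : ∀ (g : G) (a b : L), a ≤ b → g • a ≤ g • b
  s : ∀ (g : G) (a : L), g • B.s a = B.s (g • a)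

variable [MulAction G L]

variable {B}

theorem Ac.lt (h : B.Ac G) (g : G) {a b : L} (hab : a < b) : g • a < g • b := by
  refine lt_of_le_not_ge (h.le g _ _ hab.le) fun h' => ?_
  have := h.le g⁻¹ _ _ h'
  rw [inv_smul_smul, inv_smul_smul] at this
  exact absurd hab this.not_gt

theorem Ac.z_nat (h : B.Ac G) (g : G) (n : ℕ) (a : L) : g • B.z n a = B.z n (g • a) := by
  induction n with
  | zero => simp [z_zero]
  | succ n ih =>
    push_cast
    rw [z_succ, z_succ, h.s, ih]

theorem Ac.z (h : B.Ac G) (g : G) (n : ℤ) (a : L) : g • B.z n a = B.z n (g • a) := by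
  obtain ⟨k, rfl | rfl⟩ := n.eq_nat_or_neg
  · exact h.z_nat g k a
  · apply B.z_inj (n := (k : ℤ))
    rw [← h.z_nat, z_cancel_neg, z_cancel_neg]

/-- the action on the vertices -/
@[reducible] def Ac.act (h : B.Ac G) : MulAction G B.Vx where
  smul g u := Quotient.map' (s₁ := B.setoid) (s₂ := B.setoid) (fun a => g • a) (by
    rintro a b ⟨n, rfl⟩
    exact ⟨n, (h.z g n a).symm⟩) u
  one_smul u := by
    obtain ⟨a, rfl⟩ := B.exists_rep u
    show B.cls ((1 : G) • a) = B.cls a
    rw [one_smul]
  mul_smul g g' u := by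
    obtain ⟨a, rfl⟩ := B.exists_rep u
    show B.cls ((g * g') • a) = B.cls (g • g' • a)
    rw [mul_smul]

theorem Ac.smul_cls (h : B.Ac G) (g : G) (a : L) :
    letI := h.act
    g • B.cls a = B.cls (g • a) := rfl

theorem Ac.inv (h : B.Ac G) :
    letI := h.act
    B.cpx.Inv G := by
  letI := h.act
  have htp : ∀ (g : G) (u v w : B.Vx), B.Tp u v w → B.Tp (g • u) (g • v) (g • w) := by
    rintro g u v w ⟨a, b, c, rfl, rfl, rfl, h1, h2, h3⟩
    refine ⟨g • a, g • b, g • c, rfl, rfl, rfl, ?_, h.lt g h2, h.lt g h3⟩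
    rw [← h.s]; exact h.lt g h1
  constructor
  · rintro g u v ⟨a, b, rfl, rfl, h1, h2⟩
    refine ⟨g • a, g • b, rfl, rfl, ?_, h.lt g h2⟩
    rw [← h.s]; exact h.lt g h1
  · rintro g u v w (h' | h')
    · exact Or.inl (htp g _ _ _ h')
    · exact Or.inr (htp g _ _ _ h')
  · intros; rfl

/-- an element of the stabiliser of a vertex multiplies the representative with a power of the uniformiser -/
theorem Ac.stab (h : B.Ac G) (g : G) (a : L)
    (hg : letI := h.act; g • B.cls a = B.cls a) : ∃ n : ℤ, g • a = B.z n a := by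
  letI := h.act
  have h1 : B.cls a = B.cls (g • a) := hg.symm
  obtain ⟨n, hn⟩ := B.cls_eq.1 h1
  exact ⟨n, hn.symm⟩

end Bs

end Pool.Agent.H34.BD
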