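import Mathlib

/-!
# Chains of lattices in a three-dimensional vector space over a discretely valued field
-/

set_option autoImplicit false

namespace Pool.Agent.H34.BD

variable {K : Type} [Field K]

/-- `O` is the ring of a discrete valuation of the field `K` and `ϖ` is a uniformiser. -/
class Disc (O : Subring K) (ϖ : K) : Prop where
  mem : ϖ ∈ O
  ne : ϖ ≠ 0
  inv : ϖ⁻¹ ∉ O
  val : ∀ x : K, x ≠ 0 → ∃ n : ℤ, x * ϖ ^ n ∈ O ∧ (x * ϖ ^ n)⁻¹ ∈ O

variable (O : Subring K) (ϖ : K)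

/-- the module `cΛ` -/
def sc (c : K) (Λ : Submodule O (Fin 3 → K)) : Submodule O (Fin 3 → K) where
  carrier := {x | c⁻¹ • x ∈ Λ}
  zero_mem' := by simp
  add_mem' := by
    intro x y hx hy
    simp only [Set.mem_ofPred_eq, smul_add] at hx hy ⊢
    exact Λ.add_mem hx hy
  smul_mem' := by
    intro o x hx
    simp only [Set.mem_ofPred_eq] at hx ⊢
    rw [smul_comm]
    exact Λ.smul_mem o hx

variable {O ϖ}

theorem mem_sc {c : K} {Λ : Submodule O (Fin 3 → K)} {x : Fin 3 → K} :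
    x ∈ sc O c Λ ↔ c⁻¹ • x ∈ Λ := Iff.rfl

theorem smul_mem_sc {c : K} (hc : c ≠ 0) {Λ : Submodule O (Fin 3 → K)} {x : Fin 3 → K} :
    c • x ∈ sc O c Λ ↔ x ∈ Λ := by
  rw [mem_sc, smul_smul, inv_mul_cancel₀ hc, one_smul]

theorem Disc.pow_mem [Disc O ϖ] (n : ℕ) : ϖ ^ n ∈ O := O.pow_mem (Disc.mem) n

theorem Disc.zpow_mem [h : Disc O ϖ] {n : ℤ} (hn : 0 ≤ n) : ϖ ^ n ∈ O := by
  obtain ⟨k, rfl⟩ := Int.eq_ofNat_of_zero_le hn
  rw [zpow_natCast]
  exact Disc.pow_mem k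

/-- an element of `O` which is not a unit is a multiple of the uniformiser -/
theorem Disc.of_not_unit [h : Disc O ϖ] {x : K} (hx : x ∈ O) (hx' : x ≠ 0 → x⁻¹ ∉ O) :
    ∃ y ∈ O, x = ϖ * y := by
  have hne : ϖ ≠ 0 := h.ne
  by_cases h0 : x = 0
  · exact ⟨0, O.zero_mem, by rw [h0, mul_zero]⟩
  obtain ⟨n, h1, h2⟩ := h.val x h0
  have hn : n < 0 := by
    by_contra hn
    apply hx' h0
    have h3 : x⁻¹ = (x * ϖ ^ n)⁻¹ * ϖ ^ n := by
      rw [mul_inv, mul_assoc, inv_mul_cancel₀ (zpow_ne_zero n hne), mul_one]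
    rw [h3]
    exact O.mul_mem h2 (Disc.zpow_mem (not_lt.1 hn))
  refine ⟨(x * ϖ ^ n) * ϖ ^ (-n - 1), O.mul_mem h1 (Disc.zpow_mem (by omega)), ?_⟩
  rw [mul_assoc x, ← zpow_add₀ hne, show n + (-n - 1) = -1 by ring, zpow_neg_one]
  field_simp

/-- four vectors have a linear relation with coefficients in `O` such that one coefficient is a unit and all the later
ones are divisible by the uniformiser -/
theorem dep [h : Disc O ϖ] (a : Fin 4 → Fin 3 → K) :
    ∃ c : Fin 4 → K, (∀ i, c i ∈ O) ∧ ∑ i, c i • a i = 0 ∧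
      ∃ j, c j ≠ 0 ∧ (c j)⁻¹ ∈ O ∧ ∀ i, j < i → ∃ d ∈ O, c i = ϖ * d := by
  classical
  have hne : ϖ ≠ 0 := h.ne
  have hli : ¬ LinearIndependent K a := by
    intro h
    have := h.fintype_card_le_finrank
    simp at this
  obtain ⟨c, hc, i₁, hi₁⟩ := Fintype.not_linearIndependent_iff.1 hli
  have hn : ∀ i, ∃ n : ℤ, c i ≠ 0 → c i * ϖ ^ n ∈ O ∧ (c i * ϖ ^ n)⁻¹ ∈ O := by
    intro i
    by_cases hi : c i = 0
    · exact ⟨0, fun h => absurd hi h⟩
    · obtain ⟨n, hn⟩ := h.val _ hi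
      exact ⟨n, fun _ => hn⟩
  choose n hn using hn
  obtain ⟨i₀, hi₀, hmax⟩ := Finset.exists_max_image (Finset.univ.filter fun i => c i ≠ 0) n
    ⟨i₁, by simpa using hi₁⟩
  simp only [Finset.mem_filter, Finset.mem_univ, true_and] at hi₀ hmax
  have hO : ∀ i, c i * ϖ ^ n i₀ ∈ O := by
    intro i
    by_cases hi : c i = 0
    · rw [hi, zero_mul]; exact O.zero_mem
    · have h3 : c i * ϖ ^ n i₀ = (c i * ϖ ^ n i) * ϖ ^ (n i₀ - n i) := by
        rw [mul_assoc, ← zpow_add₀ hne, add_sub_cancel]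
      rw [h3]
      exact O.mul_mem (hn i hi).1 (Disc.zpow_mem (by have := hmax i hi; omega))
  obtain ⟨j, hj, hjmax⟩ := Finset.exists_max_image
    (Finset.univ.filter fun i => c i * ϖ ^ n i₀ ≠ 0 ∧ (c i * ϖ ^ n i₀)⁻¹ ∈ O) id
    ⟨i₀, by
      simp only [Finset.mem_filter, Finset.mem_univ, true_and]
      exact ⟨mul_ne_zero hi₀ (zpow_ne_zero _ hne), (hn i₀ hi₀).2⟩⟩
  simp only [Finset.mem_filter, Finset.mem_univ, true_and] at hj hjmax
  refine ⟨fun i => c i * ϖ ^ n i₀, hO, ?_, j, hj.1, hj.2, ?_⟩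
  · have h3 : ∑ i, (c i * ϖ ^ n i₀) • a i = ϖ ^ n i₀ • ∑ i, c i • a i := by
      rw [Finset.smul_sum]
      refine Finset.sum_congr rfl fun i _ => ?_
      rw [smul_smul, mul_comm]
    rw [h3, hc, smul_zero]
  · intro i hi
    refine Disc.of_not_unit (hO i) fun h1 h2 => ?_
    have := hjmax i ⟨h1, h2⟩
    exact absurd hi (not_lt.2 this)

theorem smul_mem_of {Λ : Submodule O (Fin 3 → K)} {o : K} (ho : o ∈ O) {x : Fin 3 → K}
    (hx : x ∈ Λ) : o • x ∈ Λ := Λ.smul_mem (⟨o, ho⟩ : O) hx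

/-- there is no chain of length four between `ϖ a` and `a` -/
theorem no_chain [h : Disc O ϖ] (a b c d : Submodule O (Fin 3 → K)) (h1 : sc O ϖ a < b)
    (h2 : b < c) (h3 : c < d) (h4 : d < a) : False := by
  have hne : ϖ ≠ 0 := h.ne
  let M : Fin 5 → Submodule O (Fin 3 → K) := ![sc O ϖ a, b, c, d, a]
  have hM : StrictMono M := by
    rw [Fin.strictMono_iff_lt_succ]
    intro i
    fin_cases i
    · exact h1
    · exact h2
    · exact h3
    · exact h4
  have hx : ∀ i : Fin 4, ∃ x, x ∈ M i.succ ∧ x ∉ M i.castSucc := fun i =>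
    SetLike.exists_of_lt (hM (Fin.castSucc_lt_succ))
  choose x hx1 hx2 using hx
  obtain ⟨k, hk, hsum, j, hj1, hj2, hj3⟩ := dep (O := O) (ϖ := ϖ) x
  apply hx2 j
  have h5 : k j • x j = - ∑ i ∈ Finset.univ.erase j, k i • x i := by
    rw [← Finset.add_sum_erase _ _ (Finset.mem_univ j)] at hsum
    exact eq_neg_of_add_eq_zero_left hsum
  have h6 : k j • x j ∈ M j.castSucc := by
    rw [h5]
    refine Submodule.neg_mem _ (Submodule.sum_mem _ fun i hi => ?_)
    rcases lt_trichotomy i j with hij | hij | hij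
    · refine smul_mem_of (hk i) (hM.monotone ?_ (hx1 i))
      rw [Fin.le_def]
      rw [Fin.lt_def] at hij
      simpa using hij
    · exact absurd hij (Finset.ne_of_mem_erase hi)
    · obtain ⟨e, he, hke⟩ := hj3 i hij
      refine hM.monotone (Fin.zero_le _) ?_
      show k i • x i ∈ sc O ϖ a
      rw [hke, mul_smul, smul_mem_sc hne]
      refine smul_mem_of he ?_
      have : M i.succ ≤ M 4 := hM.monotone (Fin.le_last _)
      exact this (hx1 i)
  have h7 := smul_mem_of hj2 h6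
  rwa [smul_smul, inv_mul_cancel₀ hj1, one_smul] at h7

end Pool.Agent.H34.BD
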