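import Pool.Agent.H34.BD.Ev

/-!
# Polynomial rings in several variables

If the class is closed under passing from `GL₃(R)` to `GL₃(R[X])` then it is closed under passing from `GL₃(R)` to
`GL₃` of the ring of polynomials in several variables.
-/

set_option autoImplicit false

namespace Pool.Agent.H34.BD

open Polynomial Pool.Agent.H98.FJ

theorem gl_of_injective {C : (G : Type) → [Group G] → Prop} (hC : Inherits C) {R S : Type}
    [CommRing R] [CommRing S] (φ : R →+* S) (hφ : Function.Injective φ)
    (h : C (GL (Fin 3) S)) : C (GL (Fin 3) R) := by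
  refine hC.of_injective (Matrix.GeneralLinearGroup.map φ) ?_ h
  intro g g' hg
  apply Units.ext
  ext1 i j
  apply hφ
  have := congrArg (fun m : GL (Fin 3) S => m.val i j) hg
  simpa using this

/-- polynomial rings in finitely many variables -/
theorem mv_fin {C : (G : Type) → [Group G] → Prop} (hC : Inherits C)
    (step : ∀ (R : Type) [CommRing R] [IsDomain R], C (GL (Fin 3) R) → C (GL (Fin 3) R[X]))
    {R : Type} [CommRing R] [IsDomain R] (hR : C (GL (Fin 3) R)) (n : ℕ) :
    C (GL (Fin 3) (MvPolynomial (Fin n) R)) := by
  induction n with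
  | zero =>
    exact gl_of_injective hC (MvPolynomial.isEmptyRingEquiv R (Fin 0)).toRingHom
      (MvPolynomial.isEmptyRingEquiv R (Fin 0)).injective hR
  | succ n ih =>
    exact gl_of_injective hC (MvPolynomial.finSuccEquiv R n).toRingEquiv.toRingHom
      (MvPolynomial.finSuccEquiv R n).injective (step _ ih)

/-- `SL₃` embeds in `GL₃` -/
theorem sl_of_gl {C : (G : Type) → [Group G] → Prop} (hC : Inherits C) {R : Type}
    [CommRing R] (h : C (GL (Fin 3) R)) : C (Matrix.SpecialLinearGroup (Fin 3) R) := by
  refine hC.of_injective (Matrix.SpecialLinearGroup.toGL) ?_ h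
  intro g g' hg
  apply Subtype.ext
  have := congrArg (fun m : GL (Fin 3) R => m.val) hg
  simpa using this

/-- if the group of units is finite then `GL₃(R)` is in the class with `SL₃(R)` -/
theorem gl_of_sl {C : (G : Type) → [Group G] → Prop} (hC : Inherits C) {R : Type}
    [CommRing R] (hu : Finite Rˣ) (h : C (Matrix.SpecialLinearGroup (Fin 3) R)) :
    C (GL (Fin 3) R) := by
  let φ : GL (Fin 3) R →* Rˣ := Matrix.GeneralLinearGroup.det
  have hfi : φ.ker.FiniteIndex := by
    have : Finite φ.range := inferInstance
    exact Subgroup.finiteIndex_ker φ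
  refine hC.index _ φ.ker hfi ?_
  refine hC.of_injective (G := φ.ker) (H := Matrix.SpecialLinearGroup (Fin 3) R)
    { toFun := fun g => ⟨g.1.val, by
        have := congrArg (fun u : Rˣ => (u : R)) (MonoidHom.mem_ker.1 g.2)
        simpa [φ] using this⟩
      map_one' := by apply Subtype.ext; rfl
      map_mul' := fun g g' => by apply Subtype.ext; rfl } ?_ h
  intro g g' hg
  apply Subtype.ext
  apply Units.ext
  exact congrArg (fun m : Matrix.SpecialLinearGroup (Fin 3) R => m.val) hg

end Pool.Agent.H34.BD
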