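import Pool.Agent.H34.BD.Abs

/-!
# The links of the abstract building have girth at least six
-/

set_option autoImplicit false

namespace Pool.Agent.H34.BD

open Pool.Agent.H54.CX

namespace Bs

variable {L : Type} [SemilatticeSup L] (B : Bs L)

theorem ang_eq (a b c : B.Vx) : B.cpx.ang a b c = Real.pi / 3 := by
  have h : ((B.cpx.len a b ^ 2 + B.cpx.len a c ^ 2 - B.cpx.len b c ^ 2) /
      (2 * B.cpx.len a b * B.cpx.len a c)) = Real.cos (Real.pi / 3) := by
    rw [Real.cos_pi_div_three]
    show ((1 : ℝ) ^ 2 + 1 ^ 2 - 1 ^ 2) / (2 * 1 * 1) = 1 / 2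
    norm_num
  rw [Cpx.ang, h]
  refine Real.arccos_cos (by positivity) ?_
  have := Real.pi_pos
  linarith

/-- an injective closed path in the poset between `s a` and `a` is not of length `3`, `4`, `5` -/
theorem six_le {a : L} {n : ℕ} {b : ℕ → L} (hn : 3 ≤ n) (hb : b n = b 0)
    (hinj : ∀ i j, i < j → j < n → b i ≠ b j) (h1 : ∀ i, i ≤ n → B.s a < b i)
    (h2 : ∀ i, i ≤ n → b i < a) (h : ∀ i, i < n → b i < b (i + 1) ∨ b (i + 1) < b i) : 6 ≤ n := by
  have ch : ∀ i j k, i ≤ n → k ≤ n → b i < b j → b j < b k → False := fun i j k hi hk h3 h4 =>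
    B.chain a _ _ _ (h1 i hi) h3 h4 (h2 k hk)
  by_contra hlt
  have h6 : n = 3 ∨ n = 4 ∨ n = 5 := by omega
  -- no four-cycle
  have four : ∀ i j k l, i ≤ n → j ≤ n → k ≤ n → l ≤ n → b i ≠ b k → b j ≠ b l →
      b i < b j → b k < b j → b k < b l → b i < b l → False := by
    intro i j k l hi hj hk hl hik hjl e1 e2 e3 e4
    have f1 : b i ⊔ b k ≤ b j := sup_le e1.le e2.le
    have f2 : b i ⊔ b k ≤ b l := sup_le e4.le e3.le
    have f3 : b i < b i ⊔ b k := by
      refine lt_of_le_of_ne le_sup_left fun h => ?_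
      have : b k ≤ b i := by rw [h]; exact le_sup_right
      exact ch k i j hk hj (lt_of_le_of_ne this hik.symm) e1
    rcases f1.eq_or_lt with f1 | f1
    · rw [f1] at f2
      exact ch i j l hi hl e1 (lt_of_le_of_ne f2 hjl)
    · exact B.chain a _ _ _ (h1 i hi) f3 f1 (h2 j hj)
  rcases h6 with rfl | rfl | rfl
  · have a0 := h 0 (by omega)
    have a1 := h 1 (by omega)
    have a2 := h 2 (by omega)
    simp only [Nat.reduceAdd] at a0 a1 a2 hb
    rw [hb] at a2
    have c1 := ch 0 1 2 (by omega) (by omega)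
    have c2 := ch 2 1 0 (by omega) (by omega)
    have c3 := ch 1 2 0 (by omega) (by omega)
    have c4 := ch 0 2 1 (by omega) (by omega)
    have c5 := ch 2 0 1 (by omega) (by omega)
    have c6 := ch 1 0 2 (by omega) (by omega)
    rcases a0 with a0 | a0 <;> rcases a1 with a1 | a1 <;> rcases a2 with a2 | a2 <;>
      first
        | exact c1 a0 a1
        | exact c2 a1 a0
        | exact c3 a1 a2
        | exact c5 a2 a1
        | exact c5 a2 a0
        | exact c4 a2 a1
        | exact c6 a0 a2
  · have a0 := h 0 (by omega)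
    have a1 := h 1 (by omega)
    have a2 := h 2 (by omega)
    have a3 := h 3 (by omega)
    simp only [Nat.reduceAdd] at a0 a1 a2 a3 hb
    rw [hb] at a3
    have c1 := ch 0 1 2 (by omega) (by omega)
    have c2 := ch 2 1 0 (by omega) (by omega)
    have c3 := ch 1 2 3 (by omega) (by omega)
    have c4 := ch 3 2 1 (by omega) (by omega)
    have c5 := ch 2 3 0 (by omega) (by omega)
    have c6 := ch 0 3 2 (by omega) (by omega)
    have n02 := hinj 0 2 (by omega) (by omega)
    have n13 := hinj 1 3 (by omega) (by omega)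
    have d1 := four 0 1 2 3 (by omega) (by omega) (by omega) (by omega) n02 n13
    have d2 := four 1 0 3 2 (by omega) (by omega) (by omega) (by omega) n13 n02
    have c7 := ch 3 0 1 (by omega) (by omega)
    have c8 := ch 1 0 3 (by omega) (by omega)
    rcases a0 with a0 | a0 <;> rcases a1 with a1 | a1 <;> rcases a2 with a2 | a2 <;>
      rcases a3 with a3 | a3 <;>
      first
        | exact c1 a0 a1
        | exact c2 a1 a0
        | exact c3 a1 a2
        | exact c4 a2 a1
        | exact c5 a2 a3
        | exact c6 a3 a2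
        | exact c7 a3 a0
        | exact c8 a0 a3
        | exact d1 a0 a1 a2 a3
        | exact d2 a0 a3 a2 a1
  · have a0 := h 0 (by omega)
    have a1 := h 1 (by omega)
    have a2 := h 2 (by omega)
    have a3 := h 3 (by omega)
    have a4 := h 4 (by omega)
    simp only [Nat.reduceAdd] at a0 a1 a2 a3 a4 hb
    rw [hb] at a4
    have c1 := ch 0 1 2 (by omega) (by omega)
    have c2 := ch 2 1 0 (by omega) (by omega)
    have c3 := ch 1 2 3 (by omega) (by omega)
    have c4 := ch 3 2 1 (by omega) (by omega)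
    have c5 := ch 2 3 4 (by omega) (by omega)
    have c6 := ch 4 3 2 (by omega) (by omega)
    have c7 := ch 3 4 0 (by omega) (by omega)
    have c8 := ch 0 4 3 (by omega) (by omega)
    have c9 := ch 4 0 1 (by omega) (by omega)
    have c10 := ch 1 0 4 (by omega) (by omega)
    rcases a0 with a0 | a0 <;> rcases a1 with a1 | a1 <;> rcases a2 with a2 | a2 <;>
      rcases a3 with a3 | a3 <;> rcases a4 with a4 | a4 <;>
      first
        | exact c1 a0 a1
        | exact c2 a1 a0
        | exact c3 a1 a2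
        | exact c4 a2 a1
        | exact c5 a2 a3
        | exact c6 a3 a2
        | exact c7 a3 a4
        | exact c8 a4 a3
        | exact c9 a4 a0
        | exact c10 a0 a4

theorem link : B.cpx.Link := by
  intro u n v hn hv hinj ht
  obtain ⟨a, rfl⟩ := B.exists_rep u
  -- representatives
  have hed : ∀ i, i ≤ n → B.Ed (B.cls a) (v i) := by
    intro i hi
    rcases hi.lt_or_eq with hi | rfl
    · exact B.cpx.edge _ _ _ (ht i hi)
    · rw [hv]; exact B.cpx.edge _ _ _ (ht 0 (by omega))
  have hrep : ∀ i, ∃ b, i ≤ n → B.cls b = v i ∧ B.s a < b ∧ b < a := by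
    intro i
    by_cases hi : i ≤ n
    · obtain ⟨b, hb⟩ := B.exists_edge (hed i hi)
      exact ⟨b, fun _ => hb⟩
    · exact ⟨a, fun h => absurd h hi⟩
  choose b hb using hrep
  have h6 : 6 ≤ n := by
    refine B.six_le (a := a) (b := b) hn ?_ ?_ (fun i hi => (hb i hi).2.1)
      (fun i hi => (hb i hi).2.2) ?_
    · obtain ⟨e1, e2, e3⟩ := hb n le_rfl
      obtain ⟨f1, f2, f3⟩ := hb 0 (by omega)
      exact B.rep_unique e2 e3 f2 f3 (by rw [e1, f1, hv])
    · intro i j hij hj h
      refine hinj i j hij hj ?_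
      rw [← (hb i (by omega)).1, ← (hb j (by omega)).1, h]
    · intro i hi
      obtain ⟨e1, e2, e3⟩ := hb i hi.le
      obtain ⟨f1, f2, f3⟩ := hb (i + 1) hi
      rcases ht i hi with h | h
      · obtain ⟨c, d, g1, g2, g3, g4, g5⟩ := B.exists_tp h
        right
        have hc : b i = c := B.rep_unique e2 e3 (g3.trans g4) g5 (by rw [e1, g1])
        have hd : b (i + 1) = d := B.rep_unique f2 f3 g3 (g4.trans g5) (by rw [f1, g2])
        rw [hc, hd]; exact g4
      · have h := h.rot
        obtain ⟨c, d, g1, g2, g3, g4, g5⟩ := B.exists_tp h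
        left
        have hc : b (i + 1) = c := B.rep_unique f2 f3 (g3.trans g4) g5 (by rw [f1, g1])
        have hd : b i = d := B.rep_unique e2 e3 g3 (g4.trans g5) (by rw [e1, g2])
        rw [hc, hd]; exact g4
  rw [Finset.sum_congr rfl (fun i _ => B.ang_eq _ _ _), Finset.sum_const, Finset.card_range,
    nsmul_eq_mul]
  have h7 : (6 : ℝ) ≤ n := by exact_mod_cast h6
  have := Real.pi_pos
  nlinarith

end Bs

end Pool.Agent.H34.BD
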