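import Pool.Agent.H34.BD.Abs

/-!
# The abstract building is simply connected

Contraction along the maps `a ↦ a ⊔ z k b₀`.
-/

set_option autoImplicit false

namespace Pool.Agent.H34.BD

open Pool.Agent.H54.CX Cls

/-- simple connectivity seen from one vertex -/
theorem sc_of_base {V : Type} {X : Cpx V} (x₀ : V) (h1 : ∀ b, ∃ q, PC X x₀ b q)
    (h2 : ∀ q, PC X x₀ x₀ q → q = pt X x₀) : X.SC := by
  refine sc_iff.2 ⟨⟨x₀⟩, ?_, ?_⟩
  · intro a b
    obtain ⟨p, hp⟩ := h1 a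
    obtain ⟨q, hq⟩ := h1 b
    obtain ⟨r, hr, -, -⟩ := hp.exists_rev
    exact ⟨_, hr.trans hq⟩
  · intro a q hq
    obtain ⟨p, hp⟩ := h1 a
    obtain ⟨r, hr, h3, h4⟩ := hp.exists_rev
    have h5 := h2 _ ((hp.trans hq).trans hr)
    calc q = pt X a * q * pt X a := by rw [hq.pt_mul, hq.mul_pt]
      _ = (r * p) * q * (r * p) := by rw [h4]
      _ = r * (p * q * r) * p := by simp only [mul_assoc]
      _ = r * pt X x₀ * p := by rw [h5]
      _ = pt X a := by rw [mul_assoc, hp.pt_mul, h4]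

namespace Bs

variable {L : Type} [SemilatticeSup L] (B : Bs L)

/-- the class of the vertex of `a` -/
def p (a : L) : Cls B.cpx := pt B.cpx (B.cls a)

theorem p_mul_self (a : L) : B.p a * B.p a = B.p a := stay _

/-- a chain `s a ≤ b ≤ a` gives equal or adjacent vertices -/
theorem near_of {a b : L} (h1 : B.s a ≤ b) (h2 : b ≤ a) : B.cpx.Near (B.cls a) (B.cls b) := by
  rcases h1.eq_or_lt with h1 | h1
  · left; rw [← h1, cls_s]
  · rcases h2.eq_or_lt with h2 | h2
    · left; rw [h2]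
    · right; exact ⟨a, b, rfl, rfl, h1, h2⟩

/-- a chain `s a ≤ c ≤ b ≤ a` gives a possibly degenerate triangle -/
theorem deg {a b c : L} (h1 : B.s a ≤ c) (h2 : c ≤ b) (h3 : b ≤ a) :
    B.p a * B.p b * B.p c = B.p a * B.p c := by
  rcases h1.eq_or_lt with h1 | h1
  · have h4 : B.p c = B.p a := by rw [p, p, ← h1, cls_s]
    have h5 : B.s a ≤ b := h1.le.trans h2
    rw [h4, p_mul_self]
    exact near_back (B.near_of h5 h3)
  · rcases h2.eq_or_lt with h2 | h2
    · rw [h2, mul_assoc, p_mul_self]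
    · rcases h3.eq_or_lt with h3 | h3
      · rw [h3, p_mul_self]
      · exact tri (Or.inl ⟨a, b, c, rfl, rfl, rfl, h1, h2, h3⟩)

variable (o : L)

/-- the path from the vertex of `o` to the vertex of `a` -/
def gam (N : ℤ) (a : L) : ℕ → Cls B.cpx
  | 0 => B.p (a ⊔ B.z (-N) o)
  | j + 1 => gam N a j * B.p (a ⊔ B.z (j + 1 - N) o)

theorem gam_mul_p (N : ℤ) (a : L) (j : ℕ) :
    B.gam o N a j * B.p (a ⊔ B.z (j - N) o) = B.gam o N a j := by
  cases j with
  | zero => simp only [gam, Nat.cast_zero, zero_sub, p_mul_self]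
  | succ j =>
    simp only [gam]
    push_cast
    rw [mul_assoc, p_mul_self]

theorem sup_z_anti (a : L) {m n : ℤ} (h : m ≤ n) : a ⊔ B.z n o ≤ a ⊔ B.z m o :=
  sup_le_sup le_rfl (B.z_anti h o)

theorem s_sup_z (a b : L) (h : B.s a ≤ b) (m : ℤ) : B.s (a ⊔ B.z m o) ≤ b ⊔ B.z (m + 1) o := by
  rw [← z_one, z_sup, z_one, ← z_add, add_comm 1 m]
  exact sup_le_sup h le_rfl

/-- the path to a neighbour -/
theorem gam_step (N : ℤ) (a b : L) (h1 : B.s a ≤ b) (h2 : b ≤ a)
    (h3 : b ≤ B.z (-N) o) (h4 : a ≤ B.z (-N) o) (j : ℕ) :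
    B.gam o N a j * B.p (b ⊔ B.z (j - N) o) = B.gam o N b j := by
  induction j with
  | zero =>
    simp only [gam, Nat.cast_zero, zero_sub]
    rw [sup_eq_right.2 h3, sup_eq_right.2 h4, p_mul_self]
  | succ j ih =>
    simp only [gam]
    rw [← ih]
    have e1 := B.gam_mul_p o N a j
    have e2 : ((j + 1 : ℕ) : ℤ) - N = j + 1 - N := by push_cast; ring
    have e3 : (j : ℤ) + 1 - N = (j - N) + 1 := by ring
    rw [e2]
    have d1 := B.deg (a := a ⊔ B.z (j - N) o) (b := a ⊔ B.z (j + 1 - N) o)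
      (c := b ⊔ B.z (j + 1 - N) o) (by rw [e3]; exact B.s_sup_z o a b h1 _)
      (sup_le_sup h2 le_rfl) (B.sup_z_anti o a (by omega))
    have d2 := B.deg (a := a ⊔ B.z (j - N) o) (b := b ⊔ B.z (j - N) o)
      (c := b ⊔ B.z (j + 1 - N) o) (by rw [e3]; exact B.s_sup_z o a b h1 _)
      (B.sup_z_anti o b (by omega)) (sup_le_sup h2 le_rfl)
    have d3 := d1.trans d2.symm
    calc B.gam o N a j * B.p (a ⊔ B.z (j + 1 - N) o) * B.p (b ⊔ B.z (j + 1 - N) o)
        = B.gam o N a j * (B.p (a ⊔ B.z (j - N) o) * B.p (a ⊔ B.z (j + 1 - N) o) *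
            B.p (b ⊔ B.z (j + 1 - N) o)) := by
          rw [← mul_assoc, ← mul_assoc, e1]
      _ = B.gam o N a j * (B.p (a ⊔ B.z (j - N) o) * B.p (b ⊔ B.z (j - N) o) *
            B.p (b ⊔ B.z (j + 1 - N) o)) := by rw [d3]
      _ = B.gam o N a j * B.p (b ⊔ B.z (j - N) o) * B.p (b ⊔ B.z (j + 1 - N) o) := by
          rw [← mul_assoc, ← mul_assoc, e1]

theorem gam_path (N : ℤ) (a : L) (h : a ≤ B.z (-N) o) (j : ℕ) :
    PC B.cpx (B.cls o) (B.cls (a ⊔ B.z (j - N) o)) (B.gam o N a j) := by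
  induction j with
  | zero =>
    simp only [gam, Nat.cast_zero, zero_sub, p]
    rw [sup_eq_right.2 h, cls_z]
    exact PC.base
  | succ j ih =>
    simp only [gam]
    push_cast
    refine ih.step (B.near_of ?_ (B.sup_z_anti o a (by omega)))
    have e3 : (j : ℤ) + 1 - N = (j - N) + 1 := by ring
    rw [e3]
    exact B.s_sup_z o a a (B.lt a).le _

theorem gam_pow (N : ℕ) (m : ℤ) (j : ℕ) : B.gam o N (B.z m o) j = pt B.cpx (B.cls o) := by
  have key : ∀ n : ℤ, B.p (B.z m o ⊔ B.z n o) = pt B.cpx (B.cls o) := by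
    intro n
    rw [p]
    rcases le_total m n with h | h
    · rw [sup_eq_left.2 (B.z_anti h o), cls_z]
    · rw [sup_eq_right.2 (B.z_anti h o), cls_z]
  induction j with
  | zero => simp only [gam]; exact key _
  | succ j ih => simp only [gam]; rw [ih, key, stay]

/-- every path from the vertex of `o` is one of the canonical paths -/
theorem exists_gam {v : B.Vx} {q : Cls B.cpx} (h : PC B.cpx (B.cls o) v q) :
    ∃ (a : L) (N₀ : ℕ), B.cls a = v ∧ ∀ N : ℕ, N₀ ≤ N → q = B.gam o N a (2 * N) := by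
  induction h with
  | base =>
    refine ⟨o, 0, rfl, fun N _ => ?_⟩
    have := B.gam_pow o N 0 (2 * N)
    rw [z_zero] at this
    exact this.symm
  | @step v w q h h' ih =>
    obtain ⟨a, N₀, rfl, h1⟩ := ih
    obtain ⟨b, rfl, h2, h3⟩ : ∃ b, B.cls b = w ∧ B.s a ≤ b ∧ b ≤ a := by
      rcases h' with h' | h'
      · exact ⟨a, h', (B.lt a).le, le_rfl⟩
      · obtain ⟨b, hb, h2, h3⟩ := B.exists_edge h'
        exact ⟨b, hb, h2.le, h3.le⟩
    obtain ⟨k, hk1, hk2⟩ := B.exists_bound b o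
    obtain ⟨l, hl1, hl2⟩ := B.exists_bound a o
    refine ⟨b, max N₀ (max k l), rfl, fun N hN => ?_⟩
    have hN0 : N₀ ≤ N := (le_max_left _ _).trans hN
    have hNk : k ≤ N := ((le_max_left _ _).trans (le_max_right _ _)).trans hN
    have hNl : l ≤ N := ((le_max_right _ _).trans (le_max_right _ _)).trans hN
    have h5 := B.gam_step o N a b h2 h3 (hk2.trans (B.z_anti (by omega) o))
      (hl2.trans (B.z_anti (by omega) o)) (2 * N)
    have h6 : b ⊔ B.z (((2 * N : ℕ) : ℤ) - N) o = b := by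
      refine sup_eq_left.2 (le_trans ?_ hk1)
      exact B.z_anti (by push_cast; omega) o
    rw [h6] at h5
    rw [← h5, ← h1 N hN0]
    rfl

theorem sc (o : L) : B.cpx.SC := by
  refine sc_of_base (B.cls o) ?_ ?_
  · intro v
    obtain ⟨a, rfl⟩ := B.exists_rep v
    obtain ⟨k, hk1, hk2⟩ := B.exists_bound a o
    have h1 := B.gam_path o k a hk2 (2 * k)
    have h6 : a ⊔ B.z (((2 * k : ℕ) : ℤ) - k) o = a := by
      refine sup_eq_left.2 (le_trans ?_ hk1)
      exact B.z_anti (by push_cast; omega) o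
    rw [h6] at h1
    exact ⟨_, h1⟩
  · intro q hq
    obtain ⟨a, N, h1, h2⟩ := B.exists_gam o hq
    obtain ⟨m, rfl⟩ := B.cls_eq.1 h1.symm
    rw [h2 N le_rfl, gam_pow]

end Bs

end Pool.Agent.H34.BD
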