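import Pool.Agent.H34.BD.Lat

/-!
# The action of the general linear group of a polynomial ring on the building

The matrices with polynomial entries which fix a vertex have bounded degree.
-/

set_option autoImplicit false

namespace Pool.Agent.H34.BD

open Polynomial

variable {K : Type} [Field K] (O : Subring K) (ϖ : K) [h : Disc O ϖ]

/-- the action of `GL₃(K)` on the lattices -/
@[reducible] def glAct : MulAction (GL (Fin 3) K) (Lt O ϖ) where
  smul g a := ⟨com (g⁻¹ : GL (Fin 3) K).val a.1, isLat_com (B := g.val) (by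
    rw [← Units.val_mul, mul_inv_cancel, Units.val_one]) a.2⟩
  one_smul a := Subtype.ext (by
    show com (1⁻¹ : GL (Fin 3) K).val a.1 = a.1
    rw [inv_one, Units.val_one, com_one])
  mul_smul g g' a := Subtype.ext (by
    show com ((g * g')⁻¹ : GL (Fin 3) K).val a.1 = com (g⁻¹).val (com (g'⁻¹).val a.1)
    rw [com_com, mul_inv_rev, Units.val_mul])

variable {R : Type} [CommRing R] (ι : R[X] →+* K)

/-- the action of `GL₃(R[X])` on the lattices -/
@[reducible] noncomputable def polAct : MulAction (GL (Fin 3) R[X]) (Lt O ϖ) :=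
  letI := glAct O ϖ
  MulAction.compHom (Lt O ϖ) (Matrix.GeneralLinearGroup.map ι)

theorem polAct_val (g : GL (Fin 3) R[X]) (a : Lt O ϖ) :
    letI := polAct O ϖ ι
    (g • a).1 = com ((Matrix.GeneralLinearGroup.map ι g)⁻¹ : GL (Fin 3) K).val a.1 := rfl

theorem polAct_ac :
    letI := polAct O ϖ ι
    (bs O ϖ).Ac (GL (Fin 3) R[X]) := by
  letI := polAct O ϖ ι
  constructor
  · intro g a b hab
    exact com_mono _ hab
  · intro g a
    exact Subtype.ext (com_sc _ _ _)

variable {O ϖ}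

theorem bs_z_nat (n : ℕ) (a : Lt O ϖ) : ((bs O ϖ).z n a).1 = sc O (ϖ ^ n) a.1 := by
  have h1 : (bs O ϖ).z n a = (sIso O ϖ ^ n) a := by
    show ((sIso O ϖ) ^ (n : ℤ)) a = _
    rw [zpow_natCast]
  rw [h1, sIso_pow]

/-- the entries of a matrix which multiplies a lattice with a nonnegative power of the uniformiser -/
theorem entries {a : Lt O ϖ} {k : ℕ} (h1 : ∀ x : Fin 3 → K, (∀ i, x i ∈ O) → ϖ ^ k • x ∈ a.1)
    (h2 : ∀ x ∈ a.1, ∀ i, ϖ ^ k * x i ∈ O) (g : GL (Fin 3) R[X]) (n : ℕ)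
    (hg : letI := polAct O ϖ ι; g • a = (bs O ϖ).z n a) (i j : Fin 3) :
    ϖ ^ (2 * (k : ℤ) - n) * ι (g.val i j) ∈ O := by
  letI := polAct O ϖ ι
  have hne : ϖ ≠ 0 := h.ne
  have hg1 : com ((Matrix.GeneralLinearGroup.map ι g)⁻¹ : GL (Fin 3) K).val a.1 =
      sc O (ϖ ^ n) a.1 := by
    rw [← bs_z_nat, ← hg]; rfl
  set M : GL (Fin 3) K := Matrix.GeneralLinearGroup.map ι g with hM
  have h3 : ϖ ^ k • (Pi.single j 1 : Fin 3 → K) ∈ a.1 := by
    refine h1 _ fun i => ?_
    by_cases hij : i = j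
    · subst hij; rw [Pi.single_eq_same]; exact O.one_mem
    · rw [Pi.single_eq_of_ne hij]; exact O.zero_mem
  have h4 : M.val.mulVec (ϖ ^ k • (Pi.single j 1 : Fin 3 → K)) ∈
      com (M⁻¹ : GL (Fin 3) K).val a.1 := by
    rw [mem_com, Matrix.mulVec_mulVec, ← Units.val_mul, inv_mul_cancel, Units.val_one,
      Matrix.one_mulVec]
    exact h3
  rw [hg1, mem_sc] at h4
  have h5 := h2 _ h4 i
  rw [Matrix.mulVec_smul, Matrix.mulVec_single_one] at h5
  simp only [Pi.smul_apply, smul_eq_mul] at h5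
  have h6 : ϖ ^ k * ((ϖ ^ n)⁻¹ * (ϖ ^ k * M.val.col j i)) =
      ϖ ^ (2 * (k : ℤ) - n) * ι (g.val i j) := by
    rw [zpow_sub₀ hne, two_mul, zpow_add₀ hne, zpow_natCast, zpow_natCast]
    have h7 : M.val.col j i = ι (g.val i j) := by
      rw [hM]; rfl
    rw [h7]
    ring
  rwa [h6] at h5

/-- the matrices in the stabiliser of a vertex have bounded degree -/
theorem exists_degree (hι : ∀ (p : R[X]) (n : ℤ), p ≠ 0 → ϖ ^ n * ι p ∈ O → (p.natDegree : ℤ) ≤ n)
    [Nontrivial R] (v : (bs O ϖ).Vx) :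
    ∃ d : ℕ, ∀ g : GL (Fin 3) R[X],
      (letI := polAct O ϖ ι
       letI := (polAct_ac O ϖ ι).act
       g • v = v) → ∀ i j, (g.val i j).natDegree ≤ d := by
  letI := polAct O ϖ ι
  have hA := polAct_ac O ϖ ι
  obtain ⟨a, rfl⟩ := (bs O ϖ).exists_rep v
  obtain ⟨k, h1, h2⟩ := a.2
  have pos : ∀ (g : GL (Fin 3) R[X]) (n : ℕ), g • a = (bs O ϖ).z n a → n = 0 := by
    intro g n hg
    by_contra hn
    have hpow : ∀ m : ℕ, g ^ m • a = (bs O ϖ).z ((m * n : ℕ) : ℤ) a := by
      intro m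
      induction m with
      | zero => rw [pow_zero, one_smul, zero_mul, Nat.cast_zero, Bs.z_zero]
      | succ m ih =>
        rw [pow_succ', mul_smul, ih, hA.z, hg, ← Bs.z_add]
        congr 1
        push_cast
        ring
    have h5 := entries ι h1 h2 (g ^ (2 * k + 1)) ((2 * k + 1) * n) (hpow _)
    have h6 : (g ^ (2 * k + 1)).val = 0 := by
      ext1 i j
      by_contra h0
      have h7 := hι _ _ h0 (h5 i j)
      have h8 : 1 ≤ n := Nat.one_le_iff_ne_zero.2 hn
      have h9 : 2 * k + 1 ≤ (2 * k + 1) * n := Nat.le_mul_of_pos_right _ h8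
      have h10 : ((2 * k + 1 : ℕ) : ℤ) ≤ (((2 * k + 1) * n : ℕ) : ℤ) := by exact_mod_cast h9
      push_cast at h7 h10
      have h11 : (0 : ℤ) ≤ ((g ^ (2 * k + 1)).val i j).natDegree := by positivity
      linarith
    exact (g ^ (2 * k + 1)).ne_zero h6
  refine ⟨2 * k, fun g hg i j => ?_⟩
  obtain ⟨n, hn⟩ := hA.stab g a hg
  have hn0 : n = 0 := by
    obtain ⟨m, rfl | rfl⟩ := n.eq_nat_or_neg
    · rw [pos g m hn]; rfl
    · have h5 : g⁻¹ • a = (bs O ϖ).z m a := by
        rw [inv_smul_eq_iff, hA.z, hn, Bs.z_cancel_neg]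
      rw [pos g⁻¹ m h5]; rfl
  subst hn0
  by_cases h0 : g.val i j = 0
  · rw [h0, natDegree_zero]; exact Nat.zero_le _
  have h5 := entries ι h1 h2 g 0 hn i j
  have h6 := hι _ _ h0 h5
  push_cast at h6
  omega

end Pool.Agent.H34.BD
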