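import Pool.Agent.H34.BD.Rat
import Pool.Agent.H34.BD.Stab
import Pool.Agent.H34.BD.SC
import Pool.Agent.H34.BD.Link

/-!
# The general linear group of a polynomial ring acts on a two-dimensional building

The stabilisers are detected by homomorphisms to groups in the class.
-/

set_option autoImplicit false

namespace Pool.Agent.H34.BD

open Polynomial Pool.Agent.H98.FJ Pool.Agent.H54.CX

variable {R : Type} [CommRing R]

/-- a polynomial matrix which is the identity if all differences of entries vanish -/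
theorem eq_one_of (g : GL (Fin 3) R[X]) (h : ∀ i j, g.val i j - (1 : Matrix (Fin 3) (Fin 3) R[X]) i j = 0) :
    g = 1 := by
  apply Units.ext
  ext1 i j
  rw [Units.val_one]
  exact sub_eq_zero.1 (h i j)

theorem natDegree_sub_one_le {g : GL (Fin 3) R[X]} {d : ℕ} (hd : ∀ i j, (g.val i j).natDegree ≤ d)
    (i j : Fin 3) : (g.val i j - (1 : Matrix (Fin 3) (Fin 3) R[X]) i j).natDegree ≤ d := by
  refine (natDegree_sub_le _ _).trans (max_le (hd i j) ?_)
  have : ((1 : Matrix (Fin 3) (Fin 3) R[X]) i j).natDegree = 0 := by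
    rw [Matrix.one_apply]
    split
    · exact natDegree_one
    · exact natDegree_zero
  rw [this]; exact Nat.zero_le _

theorem map_entry {S : Type} [CommRing S] (φ : R[X] →+* S) {g : GL (Fin 3) R[X]}
    (hg : Matrix.GeneralLinearGroup.map φ g = 1) (i j : Fin 3) :
    φ (g.val i j - (1 : Matrix (Fin 3) (Fin 3) R[X]) i j) = 0 := by
  have h1 : φ (g.val i j) = (1 : Matrix (Fin 3) (Fin 3) S) i j := by
    have := congrArg (fun m : GL (Fin 3) S => m.val i j) hg
    simpa using this
  rw [map_sub, h1, sub_eq_zero, Matrix.one_apply, Matrix.one_apply]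
  split
  · exact (map_one φ).symm
  · exact (map_zero φ).symm

/-- the polynomial matrices of bounded degree are detected by a homomorphism to a group in the class -/
theorem exists_detect [IsDomain R] {C : (G : Type) → [Group G] → Prop} (hC : Inherits C)
    (hR : C (GL (Fin 3) R)) (d : ℕ) :
    ∃ (Q : Type) (_ : Group Q) (f : GL (Fin 3) R[X] →* Q), C Q ∧
      ∀ g : GL (Fin 3) R[X], (∀ i j, (g.val i j).natDegree ≤ d) → f g = 1 → g = 1 := by
  rcases finite_or_infinite R with hfin | hinf
  · -- finite ring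
    have hmon : (X ^ (d + 1) : R[X]).Monic := monic_X_pow _
    have : Module.Finite R (AdjoinRoot (X ^ (d + 1) : R[X])) := hmon.finite_adjoinRoot
    have hfin2 : Finite (AdjoinRoot (X ^ (d + 1) : R[X])) := Module.finite_of_finite R
    refine ⟨GL (Fin 3) (AdjoinRoot (X ^ (d + 1) : R[X])), inferInstance,
      Matrix.GeneralLinearGroup.map (AdjoinRoot.mk _), hC.fin _ inferInstance, ?_⟩
    intro g hd hg
    refine eq_one_of g fun i j => ?_
    have h1 := map_entry (AdjoinRoot.mk (X ^ (d + 1) : R[X])) hg i j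
    rw [AdjoinRoot.mk_eq_zero] at h1
    refine eq_zero_of_dvd_of_natDegree_lt h1 ?_
    rw [natDegree_X_pow]
    exact Nat.lt_succ_of_le (natDegree_sub_one_le hd i j)
  · let a : Fin (d + 1) → R := fun i => Infinite.natEmbedding R i
    have ha : Function.Injective a := fun i j hij =>
      Fin.ext ((Infinite.natEmbedding R).injective hij)
    refine ⟨Fin (d + 1) → GL (Fin 3) R, inferInstance,
      MonoidHom.pi fun i => Matrix.GeneralLinearGroup.map (evalRingHom (a i)),
      hC.pi _ inferInstance _ fun _ => hR, ?_⟩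
    intro g hd hg
    refine eq_one_of g fun i j => ?_
    refine eq_zero_of_natDegree_lt_card_of_eval_eq_zero _ ha ?_ ?_
    · intro k
      have h1 := congrFun hg k
      exact map_entry (evalRingHom (a k)) h1 i j
    · rw [Fintype.card_fin]
      exact Nat.lt_succ_of_le (natDegree_sub_one_le hd i j)

/-- **The action of `GL₃(R[X])` on the building of `GL₃` of the field of rational functions.** -/
theorem data [IsDomain R] {C : (G : Type) → [Group G] → Prop} (hC : Inherits C)
    (hR : C (GL (Fin 3) R)) :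
    ∃ (V : Type) (_ : MulAction (GL (Fin 3) R[X]) V) (X : Cpx V),
      (∀ a b, X.len a b = 1) ∧ X.SC ∧ X.Link ∧ X.Inv (GL (Fin 3) R[X]) ∧
      ∀ F : Set V, F.Finite → ∃ (Q : Type) (_ : Group Q) (f : GL (Fin 3) R[X] →* Q), C Q ∧
        ∀ v ∈ F, ∀ g : GL (Fin 3) R[X], g • v = v → f g = 1 → g = 1 := by
  let O := OInf (FractionRing R)
  let ϖ : RatFunc (FractionRing R) := RatFunc.X⁻¹
  letI i1 := polAct O ϖ (iota R)
  have hA := polAct_ac O ϖ (iota R)
  letI i2 := hA.act
  refine ⟨(bs O ϖ).Vx, i2, (bs O ϖ).cpx, fun _ _ => rfl, (bs O ϖ).sc ⟨std O, isLat_std⟩,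
    (bs O ϖ).link, hA.inv, ?_⟩
  intro F hF
  have hd := exists_degree (O := O) (ϖ := ϖ) (iota R) (fun p n hp h => iota_deg R p n hp h)
  choose d hd using hd
  obtain ⟨D, hD⟩ := (hF.image d).bddAbove
  obtain ⟨Q, hQ, f, h1, h2⟩ := exists_detect hC hR D
  refine ⟨Q, hQ, f, h1, fun v hv g hg hfg => h2 g (fun i j => ?_) hfg⟩
  exact (hd v g hg i j).trans (hD ⟨v, hv, rfl⟩)

end Pool.Agent.H34.BD
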