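import Pool.Agent.H34.BD.Chain
import Pool.Agent.H34.BD.Act

/-!
# The semilattice of the lattices in a three-dimensional vector space over a discretely valued field
-/

set_option autoImplicit false

namespace Pool.Agent.H34.BD

variable {K : Type} [Field K] (O : Subring K) (ϖ : K)

/-- `Λ` is a lattice: it lies between two multiples of the standard lattice -/
def IsLat (Λ : Submodule O (Fin 3 → K)) : Prop :=
  ∃ k : ℕ, (∀ x : Fin 3 → K, (∀ i, x i ∈ O) → ϖ ^ k • x ∈ Λ) ∧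
    ∀ x ∈ Λ, ∀ i, ϖ ^ k * x i ∈ O

variable {O ϖ}

theorem sc_sc (c d : K) (Λ : Submodule O (Fin 3 → K)) : sc O c (sc O d Λ) = sc O (c * d) Λ := by
  ext x
  rw [mem_sc, mem_sc, mem_sc, smul_smul, mul_inv, mul_comm]

theorem sc_one (Λ : Submodule O (Fin 3 → K)) : sc O 1 Λ = Λ := by
  ext x
  rw [mem_sc, inv_one, one_smul]

theorem sc_mono (c : K) {Λ Λ' : Submodule O (Fin 3 → K)} (h : Λ ≤ Λ') : sc O c Λ ≤ sc O c Λ' :=
  fun _ hx => h hx

/-- the inverse image of a module under a matrix -/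
def com (A : Matrix (Fin 3) (Fin 3) K) (Λ : Submodule O (Fin 3 → K)) :
    Submodule O (Fin 3 → K) where
  carrier := {x | A.mulVec x ∈ Λ}
  zero_mem' := by simp
  add_mem' := by
    intro x y hx hy
    simp only [Set.mem_ofPred_eq, Matrix.mulVec_add] at hx hy ⊢
    exact Λ.add_mem hx hy
  smul_mem' := by
    intro o x hx
    simp only [Set.mem_ofPred_eq] at hx ⊢
    rw [Matrix.mulVec_smul]
    exact Λ.smul_mem o hx

theorem mem_com {A : Matrix (Fin 3) (Fin 3) K} {Λ : Submodule O (Fin 3 → K)} {x : Fin 3 → K} :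
    x ∈ com A Λ ↔ A.mulVec x ∈ Λ := Iff.rfl

theorem com_com (A B : Matrix (Fin 3) (Fin 3) K) (Λ : Submodule O (Fin 3 → K)) :
    com A (com B Λ) = com (B * A) Λ := by
  ext x
  rw [mem_com, mem_com, mem_com, Matrix.mulVec_mulVec]

theorem com_one (Λ : Submodule O (Fin 3 → K)) : com 1 Λ = Λ := by
  ext x
  rw [mem_com, Matrix.one_mulVec]

theorem com_mono (A : Matrix (Fin 3) (Fin 3) K) {Λ Λ' : Submodule O (Fin 3 → K)} (h : Λ ≤ Λ') :
    com A Λ ≤ com A Λ' := fun _ hx => h hx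

theorem com_sc (A : Matrix (Fin 3) (Fin 3) K) (c : K) (Λ : Submodule O (Fin 3 → K)) :
    com A (sc O c Λ) = sc O c (com A Λ) := by
  ext x
  rw [mem_com, mem_sc, mem_sc, mem_com, Matrix.mulVec_smul]

section disc

variable [h : Disc O ϖ]

theorem exists_pow_mul_mem (x : K) : ∃ l : ℕ, ϖ ^ l * x ∈ O := by
  have hne : ϖ ≠ 0 := h.ne
  by_cases hx : x = 0
  · exact ⟨0, by rw [hx, mul_zero]; exact O.zero_mem⟩
  obtain ⟨n, h1, -⟩ := h.val x hx
  refine ⟨n.toNat, ?_⟩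
  have h3 : ϖ ^ n.toNat * x = ϖ ^ ((n.toNat : ℤ) - n) * (x * ϖ ^ n) := by
    rw [mul_comm x, ← mul_assoc, ← zpow_add₀ hne, sub_add_cancel, zpow_natCast]
  rw [h3]
  exact O.mul_mem (Disc.zpow_mem (sub_nonneg.2 (Int.self_le_toNat n))) h1

theorem pow_mul_mem {x : K} {k l : ℕ} (hx : ϖ ^ k * x ∈ O) (hkl : k ≤ l) : ϖ ^ l * x ∈ O := by
  obtain ⟨m, rfl⟩ := Nat.exists_eq_add_of_le' hkl
  rw [pow_add, mul_assoc]
  exact O.mul_mem (Disc.pow_mem m) hx

theorem exists_pow_mul_mem_mat (A : Matrix (Fin 3) (Fin 3) K) :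
    ∃ l : ℕ, ∀ i j, ϖ ^ l * A i j ∈ O := by
  have h1 : ∀ i j, ∃ l : ℕ, ϖ ^ l * A i j ∈ O := fun i j => exists_pow_mul_mem _
  choose l hl using h1
  refine ⟨∑ i, ∑ j, l i j, fun i j => pow_mul_mem (hl i j) ?_⟩
  refine le_trans ?_ (Finset.single_le_sum (f := fun i => ∑ j, l i j) (fun _ _ => Nat.zero_le _)
    (Finset.mem_univ i))
  exact Finset.single_le_sum (f := fun j => l i j) (fun _ _ => Nat.zero_le _) (Finset.mem_univ j)

theorem IsLat.of_le {Λ : Submodule O (Fin 3 → K)} {k l : ℕ}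
    (h1 : ∀ x : Fin 3 → K, (∀ i, x i ∈ O) → ϖ ^ k • x ∈ Λ)
    (h2 : ∀ x ∈ Λ, ∀ i, ϖ ^ l * x i ∈ O) : IsLat O ϖ Λ := by
  refine ⟨k + l, ?_, fun x hx i => pow_mul_mem (h2 x hx i) (by omega)⟩
  intro x hx
  rw [pow_add, mul_comm, mul_smul]
  exact smul_mem_of (Disc.pow_mem l) (h1 x hx)

theorem isLat_sup {Λ Λ' : Submodule O (Fin 3 → K)} (h1 : IsLat O ϖ Λ) (h2 : IsLat O ϖ Λ') :
    IsLat O ϖ (Λ ⊔ Λ') := by
  obtain ⟨k, h3, h4⟩ := h1
  obtain ⟨l, h5, h6⟩ := h2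
  refine IsLat.of_le (k := k) (l := k + l) (fun x hx => Submodule.mem_sup_left (h3 x hx)) ?_
  intro x hx i
  obtain ⟨y, hy, z, hz, rfl⟩ := Submodule.mem_sup.1 hx
  rw [Pi.add_apply, mul_add]
  exact O.add_mem (pow_mul_mem (h4 y hy i) (by omega)) (pow_mul_mem (h6 z hz i) (by omega))

theorem mulVec_mem {A : Matrix (Fin 3) (Fin 3) K} (hA : ∀ i j, A i j ∈ O) {x : Fin 3 → K}
    (hx : ∀ i, x i ∈ O) (i : Fin 3) : A.mulVec x i ∈ O := by
  rw [Matrix.mulVec, dotProduct]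
  exact O.sum_mem fun j _ => O.mul_mem (hA i j) (hx j)

theorem isLat_com {A B : Matrix (Fin 3) (Fin 3) K} (hBA : B * A = 1)
    {Λ : Submodule O (Fin 3 → K)} (h1 : IsLat O ϖ Λ) : IsLat O ϖ (com A Λ) := by
  obtain ⟨k, h3, h4⟩ := h1
  obtain ⟨l, hl⟩ := exists_pow_mul_mem_mat (O := O) (ϖ := ϖ) A
  obtain ⟨m, hm⟩ := exists_pow_mul_mem_mat (O := O) (ϖ := ϖ) B
  refine IsLat.of_le (k := k + l) (l := k + m) ?_ ?_
  · intro x hx
    rw [mem_com, pow_add, mul_smul, Matrix.mulVec_smul]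
    refine h3 _ ?_
    intro i
    have h5 : A.mulVec (ϖ ^ l • x) = (Matrix.of fun i j => ϖ ^ l * A i j).mulVec x := by
      ext i
      simp only [Matrix.mulVec, dotProduct, Matrix.of_apply, Pi.smul_apply, smul_eq_mul]
      refine Finset.sum_congr rfl fun j _ => ?_
      ring
    rw [h5]
    exact mulVec_mem (fun i j => hl i j) hx i
  · intro x hx i
    have h6 : (B.mulVec (A.mulVec x)) i = x i := by
      rw [Matrix.mulVec_mulVec, hBA, Matrix.one_mulVec]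
    have h7 := h4 _ hx
    generalize A.mulVec x = y at h6 h7
    have h5 : ϖ ^ (k + m) * x i =
        (Matrix.of fun i j => ϖ ^ m * B i j).mulVec (ϖ ^ k • y) i := by
      rw [← h6]
      simp only [Matrix.mulVec, dotProduct, Matrix.of_apply, Pi.smul_apply,
        smul_eq_mul, Finset.mul_sum]
      refine Finset.sum_congr rfl fun j _ => ?_
      ring
    rw [h5]
    exact mulVec_mem (fun i j => hm i j) (fun i => h7 i) i

theorem isLat_sc {c : K} (hc : c ≠ 0) {Λ : Submodule O (Fin 3 → K)} (h1 : IsLat O ϖ Λ) :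
    IsLat O ϖ (sc O c Λ) := by
  have h2 : sc O c Λ = com (c⁻¹ • (1 : Matrix (Fin 3) (Fin 3) K)) Λ := by
    ext x
    rw [mem_sc, mem_com, Matrix.smul_mulVec, Matrix.one_mulVec]
  rw [h2]
  refine isLat_com (B := c • 1) ?_ h1
  rw [smul_mul_assoc, one_mul, smul_smul, mul_inv_cancel₀ hc, one_smul]

variable (O) in
/-- the standard lattice -/
def std : Submodule O (Fin 3 → K) where
  carrier := {x | ∀ i, x i ∈ O}
  zero_mem' := fun _ => O.zero_mem
  add_mem' := fun hx hy i => O.add_mem (hx i) (hy i)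
  smul_mem' := fun o _ hx i => O.mul_mem o.2 (hx i)

omit h in
theorem isLat_std : IsLat O ϖ (std O) :=
  ⟨0, fun x hx => by rw [pow_zero, one_smul]; exact hx,
    fun x hx i => by rw [pow_zero, one_mul]; exact hx i⟩

end disc

variable (O ϖ) in
/-- the set of the lattices -/
def Lt : Type := {Λ : Submodule O (Fin 3 → K) // IsLat O ϖ Λ}

variable [h : Disc O ϖ]

instance : SemilatticeSup (Lt O ϖ) :=
  Subtype.semilatticeSup (P := fun Λ => IsLat O ϖ Λ) fun _ _ h1 h2 => isLat_sup h1 h2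

theorem Lt.le_def {a b : Lt O ϖ} : a ≤ b ↔ a.1 ≤ b.1 := Iff.rfl

theorem Lt.lt_def {a b : Lt O ϖ} : a < b ↔ a.1 < b.1 := Iff.rfl

variable (O ϖ) in
/-- the multiplication by the uniformiser -/
def sIso : Lt O ϖ ≃o Lt O ϖ where
  toFun a := ⟨sc O ϖ a.1, isLat_sc h.ne a.2⟩
  invFun a := ⟨sc O ϖ⁻¹ a.1, isLat_sc (inv_ne_zero h.ne) a.2⟩
  left_inv a := Subtype.ext (by
    show sc O ϖ⁻¹ (sc O ϖ a.1) = a.1
    rw [sc_sc, inv_mul_cancel₀ h.ne, sc_one])
  right_inv a := Subtype.ext (by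
    show sc O ϖ (sc O ϖ⁻¹ a.1) = a.1
    rw [sc_sc, mul_inv_cancel₀ h.ne, sc_one])
  map_rel_iff' := by
    intro a b
    constructor
    · intro h1 x hx
      exact (smul_mem_sc (O := O) h.ne).1 (h1 ((smul_mem_sc (O := O) h.ne).2 hx))
    · intro h1
      exact sc_mono _ h1

theorem sIso_pow (n : ℕ) (a : Lt O ϖ) : ((sIso O ϖ ^ n) a).1 = sc O (ϖ ^ n) a.1 := by
  induction n with
  | zero => rw [pow_zero, pow_zero, sc_one]; rfl
  | succ n ih =>
    rw [pow_succ', pow_succ', ← sc_sc, ← ih]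
    rfl

variable (O ϖ) in
/-- the building of `GL₃(K)` -/
def bs : Bs (Lt O ϖ) where
  s := sIso O ϖ
  lt a := by
    have hle : sc O ϖ a.1 ≤ a.1 := by
      intro x hx
      have h1 := smul_mem_of (O := O) h.mem (mem_sc.1 hx)
      rwa [smul_smul, mul_inv_cancel₀ h.ne, one_smul] at h1
    refine Lt.lt_def.2 (lt_of_le_of_ne hle fun heq => ?_)
    have heq : sc O ϖ a.1 = a.1 := heq
    obtain ⟨k, h1, h2⟩ := a.2
    have h3 : ∀ n : ℕ, sc O (ϖ ^ n) a.1 = a.1 := by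
      intro n
      induction n with
      | zero => rw [pow_zero, sc_one]
      | succ n ih => rw [pow_succ', ← sc_sc, ih, heq]
    have h4 := h1 (fun _ => 1) (fun _ => O.one_mem)
    rw [← h3 (2 * k + 1), mem_sc] at h4
    have h5 := h2 _ h4 0
    simp only [Pi.smul_apply, smul_eq_mul, mul_one] at h5
    apply h.inv
    have h6 : ϖ ^ k * ((ϖ ^ (2 * k + 1))⁻¹ * ϖ ^ k) = ϖ⁻¹ := by
      have hne : ϖ ≠ 0 := h.ne
      rw [pow_succ, two_mul, pow_add]
      field_simp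
    rwa [h6] at h5
  arch a b := by
    obtain ⟨k, h1, h2⟩ := a.2
    obtain ⟨l, h3, h4⟩ := b.2
    refine ⟨k + l, Lt.le_def.2 ?_⟩
    rw [sIso_pow]
    intro x hx
    rw [mem_sc] at hx
    have h5 := h3 _ (h2 _ hx)
    have h6 : ϖ ^ l • (fun i => ϖ ^ k * ((ϖ ^ (k + l))⁻¹ • x) i) = x := by
      have hne : ϖ ≠ 0 := h.ne
      ext i
      simp only [Pi.smul_apply, smul_eq_mul]
      rw [pow_add]
      field_simp
    rwa [h6] at h5
  chain a b c d h1 h2 h3 h4 := no_chain (ϖ := ϖ) a.1 b.1 c.1 d.1 h1 h2 h3 h4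

end Pool.Agent.H34.BD
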