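import Pool.Agent.H34.BD.Chain

/-!
# The valuation at infinity of the field of rational functions
-/

set_option autoImplicit false

namespace Pool.Agent.H34.BD

open Polynomial

variable (F : Type) [Field F]

/-- the ring of the rational functions of nonpositive degree -/
noncomputable def OInf : Subring (RatFunc F) where
  carrier := {x | x.intDegree ≤ 0}
  zero_mem' := by simp
  one_mem' := by simp
  add_mem' := by
    intro x y hx hy
    simp only [Set.mem_ofPred_eq] at hx hy ⊢
    by_cases h0 : y = 0
    · rw [h0, add_zero]; exact hx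
    by_cases h1 : x + y = 0
    · rw [h1]; simp
    · exact (RatFunc.intDegree_add_le h0 h1).trans (max_le hx hy)
  mul_mem' := by
    intro x y hx hy
    simp only [Set.mem_ofPred_eq] at hx hy ⊢
    by_cases h0 : x = 0
    · rw [h0, zero_mul]; simp
    by_cases h1 : y = 0
    · rw [h1, mul_zero]; simp
    · rw [RatFunc.intDegree_mul h0 h1]; omega
  neg_mem' := by
    intro x hx
    simp only [Set.mem_ofPred_eq] at hx ⊢
    rwa [RatFunc.intDegree_neg]

variable {F}

theorem mem_OInf {x : RatFunc F} : x ∈ OInf F ↔ x.intDegree ≤ 0 := Iff.rfl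

theorem intDegree_zpow (x : RatFunc F) (hx : x ≠ 0) (n : ℤ) :
    (x ^ n).intDegree = n * x.intDegree := by
  have key : ∀ k : ℕ, (x ^ k).intDegree = k * x.intDegree := by
    intro k
    induction k with
    | zero => simp
    | succ k ih =>
      rw [pow_succ, RatFunc.intDegree_mul (pow_ne_zero _ hx) hx, ih]
      push_cast; ring
  obtain ⟨k, rfl | rfl⟩ := n.eq_nat_or_neg
  · rw [zpow_natCast, key]
  · rw [zpow_neg, zpow_natCast, RatFunc.intDegree_inv, key]
    ring

theorem xinv_ne : (RatFunc.X : RatFunc F)⁻¹ ≠ 0 := inv_ne_zero RatFunc.X_ne_zero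

instance : Disc (OInf F) (RatFunc.X : RatFunc F)⁻¹ where
  mem := by rw [mem_OInf, RatFunc.intDegree_inv, RatFunc.intDegree_X]; norm_num
  ne := xinv_ne
  inv := by rw [mem_OInf, inv_inv, RatFunc.intDegree_X]; norm_num
  val x hx := by
    refine ⟨x.intDegree, ?_⟩
    have h1 : (x * (RatFunc.X : RatFunc F)⁻¹ ^ x.intDegree).intDegree = 0 := by
      rw [RatFunc.intDegree_mul hx (zpow_ne_zero _ xinv_ne), intDegree_zpow _ xinv_ne,
        RatFunc.intDegree_inv, RatFunc.intDegree_X]
      ring
    rw [mem_OInf, mem_OInf, RatFunc.intDegree_inv, h1]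
    simp

variable (R : Type) [CommRing R] [IsDomain R]

/-- the embedding of the ring of polynomials -/
noncomputable def iota : R[X] →+* RatFunc (FractionRing R) :=
  (algebraMap (FractionRing R)[X] (RatFunc (FractionRing R))).comp
    (Polynomial.mapRingHom (algebraMap R (FractionRing R)))

theorem iota_deg (p : R[X]) (n : ℤ) (hp : p ≠ 0)
    (h : (RatFunc.X : RatFunc (FractionRing R))⁻¹ ^ n * iota R p ∈ OInf (FractionRing R)) :
    (p.natDegree : ℤ) ≤ n := by
  have hinj : Function.Injective (algebraMap R (FractionRing R)) :=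
    IsFractionRing.injective R (FractionRing R)
  have h0 : p.map (algebraMap R (FractionRing R)) ≠ 0 :=
    (Polynomial.map_ne_zero_iff hinj).2 hp
  have h1 : iota R p = algebraMap (FractionRing R)[X] (RatFunc (FractionRing R))
      (p.map (algebraMap R (FractionRing R))) := rfl
  have h2 : iota R p ≠ 0 := by
    rw [h1]
    exact (map_ne_zero_iff _ (RatFunc.algebraMap_injective _)).2 h0
  rw [mem_OInf, RatFunc.intDegree_mul (zpow_ne_zero _ xinv_ne) h2, intDegree_zpow _ xinv_ne,
    RatFunc.intDegree_inv, RatFunc.intDegree_X, h1, RatFunc.intDegree_polynomial,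
    Polynomial.natDegree_map_eq_of_injective hinj] at h
  omega

end Pool.Agent.H34.BD
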